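import Pool.Agent.H72.AAP.Targets

/-!
# MP_3cf473_nt, row BOX: sets of tuples without a combinatorial box
-/

set_option autoImplicit false

namespace Pool.Agent.H60.AAP

open Pool.Agent.H72.AAP

private abbrev sn {α : Type} {k : ℕ} (x : Fin k → α) (e : α) : Fin (k + 1) → α :=
  Fin.snoc (α := fun _ => α) x e

private theorem sn_ite {α : Type} {k : ℕ} (a b : Fin k → α) (e e' : α)
    (J : Finset (Fin (k + 1))) :
    (fun i => if i ∈ J then sn b e' i else sn a e i) =
      sn (fun i => if i.castSucc ∈ J then b i else a i) (if Fin.last k ∈ J then e' else e) := by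
  funext i
  refine Fin.lastCases ?_ (fun j => ?_) i
  · simp [sn]
  · simp [sn]

private theorem quad {s T C : ℝ} (hT : 0 ≤ T) (hC : 0 ≤ C) (h : s ^ 2 ≤ T * s + C * T ^ 2) :
    s ≤ (1 + C) * T := by
  by_contra hcon
  push Not at hcon
  have h0 : 0 ≤ (1 + C) * T := by positivity
  have hs : 0 < s := h0.trans_lt hcon
  have h1 : (1 + C) * T * s < s * s := mul_lt_mul_of_pos_right hcon hs
  have h2 : C * T * ((1 + C) * T) ≤ C * T * s :=
    mul_le_mul_of_nonneg_left hcon.le (by positivity)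
  have h3 : C * T ^ 2 ≤ C * T * ((1 + C) * T) := by
    have : 0 ≤ C * C * T ^ 2 := by positivity
    nlinarith
  nlinarith

private theorem step {k : ℕ} {C : ℝ} (hC : 0 < C)
    (ih : ∀ (α : Type) [DecidableEq α] (A : Fin k → Finset α) (N : ℕ), 1 ≤ N →
      (∀ i, N ≤ (A i).card) → ∀ S : Finset (Fin k → α), (∀ a ∈ S, ∀ i, a i ∈ A i) →
      (∀ a b : Fin k → α, (∀ i, a i ≠ b i) →
        ∃ I : Finset (Fin k), (fun i => if i ∈ I then b i else a i) ∉ S) →
      (S.card : ℝ) * (N : ℝ) ^ ((1 : ℝ) / 2 ^ k) ≤ C * ∏ i, ((A i).card : ℝ))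
    (α : Type) [DecidableEq α] (A : Fin (k + 1) → Finset α) (N : ℕ) (hN : 1 ≤ N)
    (hA : ∀ i, N ≤ (A i).card) (S : Finset (Fin (k + 1) → α)) (hS : ∀ a ∈ S, ∀ i, a i ∈ A i)
    (hbox : ∀ a b : Fin (k + 1) → α, (∀ i, a i ≠ b i) →
      ∃ I : Finset (Fin (k + 1)), (fun i => if i ∈ I then b i else a i) ∉ S) :
    (S.card : ℝ) * (N : ℝ) ^ ((1 : ℝ) / 2 ^ (k + 1)) ≤ (1 + C) * ∏ i, ((A i).card : ℝ) := by
  obtain ⟨X, hX⟩ : ∃ X : Finset (Fin k → α), X = Fintype.piFinset (fun i => A i.castSucc) :=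
    ⟨_, rfl⟩
  obtain ⟨L, hL⟩ : ∃ L : Finset α, L = A (Fin.last k) := ⟨_, rfl⟩
  obtain ⟨P, hP⟩ : ∃ P : ℝ, P = ∏ i : Fin k, ((A i.castSucc).card : ℝ) := ⟨_, rfl⟩
  obtain ⟨g, hg⟩ : ∃ g : (Fin k → α) → α → ℝ, g = fun x e => if sn x e ∈ S then 1 else 0 :=
    ⟨_, rfl⟩
  have hXP : (X.card : ℝ) = P := by
    rw [hX, Fintype.card_piFinset, hP]
    push_cast
    rfl
  have hP0 : 0 ≤ P := by rw [← hXP]; positivity
  have hprod : ∏ i, ((A i).card : ℝ) = P * (L.card : ℝ) := by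
    rw [Fin.prod_univ_castSucc, hP, hL]
  -- the cardinality of `S`
  have hcard : (S.card : ℝ) = ∑ x ∈ X, ∑ e ∈ L, g x e := by
    have h1 : S.card = ((X ×ˢ L).filter (fun p => sn p.1 p.2 ∈ S)).card := by
      refine Finset.card_nbij' (fun a => (fun i : Fin k => a i.castSucc, a (Fin.last k)))
        (fun p => sn p.1 p.2) ?_ ?_ ?_ ?_
      · intro a ha
        have hself : sn (fun i : Fin k => a i.castSucc) (a (Fin.last k)) = a := by
          funext i
          refine Fin.lastCases ?_ (fun j => ?_) i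
          · simp [sn]
          · simp [sn]
        rw [Finset.mem_coe] at ha ⊢
        rw [Finset.mem_filter, Finset.mem_product, hX, Fintype.mem_piFinset, hL]
        refine ⟨⟨fun i => hS a ha _, hS a ha _⟩, ?_⟩
        rw [hself]
        exact ha
      · intro p hp
        rw [Finset.mem_coe, Finset.mem_filter] at hp
        exact hp.2
      · intro a ha
        funext i
        refine Fin.lastCases ?_ (fun j => ?_) i
        · simp [sn]
        · simp [sn]
      · intro p hp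
        simp [sn]
    rw [h1, Finset.card_filter, Finset.sum_product, hg]
    push_cast
    rfl
  -- the second moment
  have hdiag : ∀ e ∈ L, ∀ e' ∈ L, e ≠ e' →
      (∑ x ∈ X, g x e * g x e') * (N : ℝ) ^ ((1 : ℝ) / 2 ^ k) ≤ C * P := by
    intro e _ e' _ hee
    have h1 : ∑ x ∈ X, g x e * g x e' =
        ((X.filter fun x => sn x e ∈ S ∧ sn x e' ∈ S).card : ℝ) := by
      rw [Finset.card_filter]
      push_cast
      refine Finset.sum_congr rfl fun x _ => ?_
      rw [hg]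
      by_cases h1 : sn x e ∈ S <;> by_cases h2 : sn x e' ∈ S <;> simp [h1, h2]
    rw [h1, hP]
    refine ih α (fun i => A i.castSucc) N hN (fun i => hA _) _ (fun a ha i => ?_)
      fun a b hab => ?_
    · rw [Finset.mem_filter, hX, Fintype.mem_piFinset] at ha
      exact ha.1 i
    · by_contra hcon
      push Not at hcon
      obtain ⟨J, hJ⟩ := hbox (sn a e) (sn b e') (fun i => by
        refine Fin.lastCases ?_ (fun j => ?_) i
        · simpa [sn] using hee
        · simpa [sn] using hab j)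
      rw [sn_ite] at hJ
      have h2 := hcon (Finset.univ.filter fun i => i.castSucc ∈ J)
      rw [Finset.mem_filter] at h2
      have h3 : (fun i => if i ∈ Finset.univ.filter (fun i : Fin k => i.castSucc ∈ J) then b i
          else a i) = (fun i => if i.castSucc ∈ J then b i else a i) := by
        funext i
        simp
      rw [h3] at h2
      by_cases h4 : Fin.last k ∈ J
      · rw [if_pos h4] at hJ
        exact hJ h2.2.2
      · rw [if_neg h4] at hJ
        exact hJ h2.2.1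
  obtain ⟨ν, hν⟩ : ∃ ν : ℝ, ν = (N : ℝ) ^ ((1 : ℝ) / 2 ^ (k + 1)) := ⟨_, rfl⟩
  have hN1 : (1 : ℝ) ≤ N := by exact_mod_cast hN
  have hN0 : (0 : ℝ) < N := by linarith
  have hν0 : 0 < ν := by rw [hν]; exact Real.rpow_pos_of_pos hN0 _
  have hν2 : ν ^ 2 = (N : ℝ) ^ ((1 : ℝ) / 2 ^ k) := by
    rw [hν, ← Real.rpow_natCast, ← Real.rpow_mul hN0.le]
    congr 1
    rw [pow_succ]
    push_cast
    field_simp
  have hνN : ν ≤ N := by
    rw [hν]
    calc (N : ℝ) ^ ((1 : ℝ) / 2 ^ (k + 1)) ≤ (N : ℝ) ^ (1 : ℝ) := by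
          refine Real.rpow_le_rpow_of_exponent_le hN1 ?_
          rw [div_le_one (by positivity)]
          exact one_le_pow₀ (by norm_num)
      _ = N := Real.rpow_one _
  have hNL : (N : ℝ) ≤ L.card := by rw [hL]; exact_mod_cast hA _
  have hsq : ∑ x ∈ X, (∑ e ∈ L, g x e) ^ 2 = ∑ e ∈ L, ∑ e' ∈ L, ∑ x ∈ X, g x e * g x e' := by
    calc ∑ x ∈ X, (∑ e ∈ L, g x e) ^ 2 = ∑ x ∈ X, ∑ e ∈ L, ∑ e' ∈ L, g x e * g x e' := by
          refine Finset.sum_congr rfl fun x _ => ?_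
          rw [sq, Finset.sum_mul_sum]
      _ = ∑ e ∈ L, ∑ x ∈ X, ∑ e' ∈ L, g x e * g x e' := Finset.sum_comm
      _ = _ := Finset.sum_congr rfl fun e _ => Finset.sum_comm
  have hg01 : ∀ x e, g x e * g x e = g x e := by
    intro x e
    rw [hg]
    by_cases h1 : sn x e ∈ S <;> simp [h1]
  have hmom : (∑ x ∈ X, (∑ e ∈ L, g x e) ^ 2) * ν ^ 2 ≤
      (S.card : ℝ) * ν ^ 2 + (L.card : ℝ) ^ 2 * (C * P) := by
    rw [hsq]
    have h1 : ∀ e ∈ L, (∑ e' ∈ L, ∑ x ∈ X, g x e * g x e') * ν ^ 2 ≤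
        (∑ x ∈ X, g x e) * ν ^ 2 + (L.card : ℝ) * (C * P) := by
      intro e he
      rw [← Finset.add_sum_erase L _ he, add_mul]
      refine add_le_add (le_of_eq ?_) ?_
      · rw [Finset.sum_congr rfl fun x _ => hg01 x e]
      · calc (∑ e' ∈ L.erase e, ∑ x ∈ X, g x e * g x e') * ν ^ 2
            = ∑ e' ∈ L.erase e, (∑ x ∈ X, g x e * g x e') * ν ^ 2 := Finset.sum_mul _ _ _
          _ ≤ ∑ _e' ∈ L.erase e, C * P := by
              refine Finset.sum_le_sum fun e' he' => ?_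
              rw [hν2]
              exact hdiag e he e' (Finset.mem_of_mem_erase he') (Finset.ne_of_mem_erase he').symm
          _ = ((L.erase e).card : ℝ) * (C * P) := by rw [Finset.sum_const, nsmul_eq_mul]
          _ ≤ (L.card : ℝ) * (C * P) := by
              refine mul_le_mul_of_nonneg_right ?_ (by positivity)
              exact_mod_cast Finset.card_le_card (Finset.erase_subset _ _)
    calc (∑ e ∈ L, ∑ e' ∈ L, ∑ x ∈ X, g x e * g x e') * ν ^ 2
        = ∑ e ∈ L, (∑ e' ∈ L, ∑ x ∈ X, g x e * g x e') * ν ^ 2 := Finset.sum_mul _ _ _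
      _ ≤ ∑ e ∈ L, ((∑ x ∈ X, g x e) * ν ^ 2 + (L.card : ℝ) * (C * P)) :=
          Finset.sum_le_sum h1
      _ = (∑ e ∈ L, ∑ x ∈ X, g x e) * ν ^ 2 + (L.card : ℝ) * ((L.card : ℝ) * (C * P)) := by
          rw [Finset.sum_add_distrib, ← Finset.sum_mul, Finset.sum_const, nsmul_eq_mul]
      _ = (S.card : ℝ) * ν ^ 2 + (L.card : ℝ) ^ 2 * (C * P) := by
          rw [Finset.sum_comm, ← hcard]
          ring
  have hcs : (S.card : ℝ) ^ 2 ≤ P * ∑ x ∈ X, (∑ e ∈ L, g x e) ^ 2 := by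
    have h1 := sq_sum_le_card_mul_sum_sq (s := X) (f := fun x => ∑ e ∈ L, g x e)
    rw [hXP, ← hcard] at h1
    exact h1
  rw [hprod, ← hν]
  refine quad (by positivity) hC.le ?_
  have hs0 : (0 : ℝ) ≤ S.card := Nat.cast_nonneg _
  calc ((S.card : ℝ) * ν) ^ 2 = (S.card : ℝ) ^ 2 * ν ^ 2 := by ring
    _ ≤ (P * ∑ x ∈ X, (∑ e ∈ L, g x e) ^ 2) * ν ^ 2 :=
        mul_le_mul_of_nonneg_right hcs (by positivity)
    _ = P * ((∑ x ∈ X, (∑ e ∈ L, g x e) ^ 2) * ν ^ 2) := by ring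
    _ ≤ P * ((S.card : ℝ) * ν ^ 2 + (L.card : ℝ) ^ 2 * (C * P)) :=
        mul_le_mul_of_nonneg_left hmom hP0
    _ = P * ((S.card : ℝ) * ν) * ν + C * (P * (L.card : ℝ)) ^ 2 := by ring
    _ ≤ P * ((S.card : ℝ) * ν) * (L.card : ℝ) + C * (P * (L.card : ℝ)) ^ 2 := by
        refine add_le_add_left (mul_le_mul_of_nonneg_left (hνN.trans hNL) (by positivity)) _
    _ = P * (L.card : ℝ) * ((S.card : ℝ) * ν) + C * (P * (L.card : ℝ)) ^ 2 := by ring

theorem pf_BOX : T_BOX := by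
  intro k
  induction k with
  | zero =>
    refine ⟨1, one_pos, fun α _ A N hN hA S hS hbox => ?_⟩
    have hS0 : S = ∅ := by
      rw [Finset.eq_empty_iff_forall_notMem]
      intro a ha
      obtain ⟨I, hI⟩ := hbox a a (fun i => i.elim0)
      exact hI (by simpa using ha)
    rw [hS0]
    simp
  | succ k ih =>
    obtain ⟨C, hC, ih⟩ := ih
    exact ⟨1 + C, by linarith, fun α _ A N hN hA S hS hbox => step hC ih α A N hN hA S hS hbox⟩

end Pool.Agent.H60.AAP
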